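import Pool.Agent.SPH.H4.Ok
import Pool.Agent.SPH.Idx

/-!
# Project SPH: the generation certificate of type H4
-/

set_option maxRecDepth 10000

namespace Pool.Agent.SPH.H4

/-- the steps -/
def gl : List Gen.Stp := [
  .F 0, .F 139, .F 150, .F 161, .F 162, .F 177, .F 178, .F 196, .F 197, .F 279, .M 0 177 1,
  .M 0 197 1, .M 139 0 9, .M 139 178 9, .M 161 0 17, .M 161 162 17, .M 196 0 25, .M 196 197 25,
  .C 0 134 25, .M 150 0 33, .M 150 178 33, .C 0 156 33, .C 0 179 33, .M 33 9 37, .C 9 49 37,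
  .C 9 57 37, .M 177 0 41, .C 1 42 41, .C 1 53 41, .C 0 171 41, .C 53 45 42, .C 0 158 42,
  .C 45 50 44, .M 41 17 45, .C 17 5 45, .C 0 206 49, .C 0 209 49, .C 0 174 50, .C 0 175 50,
  .C 1 58 52, .C 1 13 53, .C 1 260 53, .C 0 217 57, .C 1 60 58, .C 0 213 58, .C 1 276 58,
  .C 1 6 60, .C 1 219 60, .C 9 4 64, .M 53 4 66, .M 5 4 67, .C 1 8 69, .C 17 11 71, .M 25 6 74,
  .M 25 8 74, .C 6 14 74, .M 5 11 77, .C 14 12 78, .M 13 12 84]

theorem gl_run : Gen.run ad.D.N ad.D.K ad.D.le ad.D.tm (ad.D.fx2 3 5)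
    0x8000000000000002224030000ec80650c0084200000000000000000000000000000001
    0x78203130000005a8000000000000000000000000000000000000001626260202027b72 gl 0
    (CD.ins 0 (ad.gi (0 : Fin 4))) = true := by
  decide +kernel

theorem gl_fin : ad.finc
    0x78203130000005a8000000000000000000000000000000000000001626260202027b72 = true := by
  decide +kernel

end Pool.Agent.SPH.H4
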