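import Pool.Agent.SPH.H4.Gcl
import Pool.Agent.SPH.Eps

/-!
# Project SPH: the automorphisms of the Artin group of type `H4`
-/

set_option maxRecDepth 10000

namespace Pool.Agent.SPH.H4

open Pool.Agent.Helper7.AG Pool.Agent.HT

/-- the Artin group of type `H4` -/
abbrev HA : Type := Artin CoxeterMatrix.H₄

/-- the product of the four generators -/
def gd : HA := PresentedGroup.of 0 * PresentedGroup.of 1 * PresentedGroup.of 2 *
  PresentedGroup.of 3

theorem k1 : td.chk1 = true := by decide +kernel

theorem kw : td.witc 1 = true := by decide +kernel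

theorem kb3 : td.blkc 3 162 2 = true := by decide +kernel

theorem kb5 : td.blkc 5 139 3 = true := by decide +kernel

theorem kp : AD.prc td 0 (List.ofFn ad.gi) = true := by decide +kernel

/-- the element with a given number -/
def el (i : ℕ) (h : i < 280) : TD.El td_ok := ⟨i, h⟩

theorem main : ∃ ε : MulAut HA, InvertsGens CoxeterMatrix.H₄ ε ∧ ε * ε = 1 ∧
    FormMod HA ε (gd ^ 15) ∧ Subgroup.center HA = Subgroup.zpowers (gd ^ 15) ∧
    OutGenBy HA ε ∧ Splits HA := by
  obtain ⟨P, hPg, hPl⟩ := AD.exists_pre ad_ok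
  obtain ⟨L, F, hg, hl⟩ := P.exists_frame
  let _ : Lattice HA := L
  have hg' : ∀ (k : Fin 4) (x : AD.SS ad_ok), x.i = ad.gi k →
      F.g x = (PresentedGroup.of k : HA) := by
    intro k x hx
    rw [hg]
    exact hPg k x hx
  have hd : F.δ = gd := by
    have h := AD.prod_of ad_ok F hg' kp
    rw [← h]
    show (List.ofFn fun k : Fin 4 => (PresentedGroup.of k : HA)).prod = gd
    simp [List.ofFn_succ, gd, mul_assoc]
  have hfix : ∀ φ : MulAut HA, φ F.δ = F.δ → ∃ x : HA, φ = MulAut.conj x := by
    intro φ hφ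
    obtain ⟨j, hj⟩ := F.two_blocks (TD.tau_triv k1) (TD.blk_of kb3 (x := el 162 (by norm_num)) rfl)
      (TD.blk_of kb5 (x := el 139 (by norm_num)) rfl) (by norm_num) rfl
      (AD.gen_two ad_ok F hg' gl_run gl_fin) hφ
    exact ⟨_, hj⟩
  have h := final F M_bd (by
    intro s
    rw [hl]
    exact hPl s) (TD.tau_triv k1) (TD.exists_moved kw) hfix
  rw [hd] at h
  exact h

end Pool.Agent.SPH.H4
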