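import Pool.Agent.SPH.H4.Cert

/-!
# Project SPH: the checks of the tables of type H4
-/

set_option maxRecDepth 10000

namespace Pool.Agent.SPH.H4

theorem k0 : td.chk0 = true := by decide +kernel

theorem kA : allB 280 td.chkA = true := by decide +kernel

theorem kB : allB 280 td.chkB = true := by decide +kernel

theorem kC : allB 280 td.chkC = true := by decide +kernel

theorem kS : allB 280 td.chkS = true := by decide +kernel

theorem kT : allB 280 td.chkT = true := by decide +kernel

theorem td_ok : td.Ok :=
  TD.ok_of_chk k0 (allB_spec kA) (allB_spec kB) (allB_spec kC) (allB_spec kS) (allB_spec kT)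

set_option backward.isDefEq.respectTransparency false in
theorem cox_eq : ∀ a b, ad.cox (ad.gi a) (ad.gi b) = ad.M a b := by decide +kernel

set_option backward.isDefEq.respectTransparency false in
theorem M_bd : ∀ a b, a ≠ b → 2 ≤ ad.M a b ∧ ad.M a b ≤ 5 := by decide +kernel

theorem kU : allB 280 ad.chkU = true := by decide +kernel

theorem kV : allB 280 ad.chkV = true := by decide +kernel

theorem ad_chk : ad.Chk where
  ok := td_ok
  T_lt := by decide +kernel
  T_N := by decide +kernel
  P := by decide +kernel
  gi_atom := by decide +kernel
  gi_inj := by decide +kernel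
  A0_eq := by decide +kernel
  cox_eq := cox_eq
  M_bd := M_bd
  run := by decide +kernel
  Q := by decide +kernel
  R := by decide +kernel
  brc := by decide +kernel
  U := allB_spec kU
  V := allB_spec kV

theorem ad_ok : ad.Ok := ad_chk.toOk

end Pool.Agent.SPH.H4
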